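import Pool.Agent.R759.SRFamily
import Pool.Agent.R759.SRLower

/-! # Least dimension of a simplicial refinement -/

set_option autoImplicit false

namespace Pool.Agent.Results.MP_ff4a33_gt.LeastDimension

open Pool.Agent.R759.SR

/-- (1) For all `d ≥ 2` and `k` there is a full-dimensional polytope `C` in `ℝ^d` (here
`ℝ^d` is `(ℝ × ℝ) × (Fin r → ℝ)` with `d = r + 2`) which is no simplex, with `2 ^ k + d + 1`
extreme points, which has a simplicial refinement by a simplex with `2 * k + d + 2` vertices.

(2) Conversely, if a polytope has a simplicial refinement by a simplex with `N` vertices, then it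
has at most `N.choose (N / 2)` extreme points. -/
theorem result :
    (∀ k r : ℕ, ∃ C : Set ((ℝ × ℝ) × (Fin r → ℝ)), IsPolytope C ∧ affineSpan ℝ C = ⊤ ∧
      (∀ N : ℕ, ¬ IsSimplex C N) ∧ (C.extremePoints ℝ).ncard = 2 ^ k + (r + 2) + 1 ∧
      ∃ (E : Type) (_ : AddCommGroup E) (_ : Module ℝ E) (_ : FiniteDimensional ℝ E) (T : Set E),
        IsSimplex T (2 * k + (r + 2) + 2) ∧ Nonempty (Refinement C T)) ∧
    ∀ (V E : Type) [AddCommGroup V] [Module ℝ V] [FiniteDimensional ℝ V]
      [AddCommGroup E] [Module ℝ E] [FiniteDimensional ℝ E] (C : Set V) (T : Set E) (N : ℕ),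
      IsPolytope C → IsSimplex T N → Nonempty (Refinement C T) →
      (C.extremePoints ℝ).ncard ≤ N.choose (N / 2) := by
  refine ⟨fun k r => ?_, ?_⟩
  · obtain ⟨R, -⟩ := Parab.exists_PRefinement k r
    refine ⟨Parab.PP k r, Parab.PP_isPolytope k r, Parab.PP_affineSpan k r,
      Parab.PP_not_simplex k r, ?_, Parab.II k r → ℝ, inferInstance, inferInstance, inferInstance,
      stdSimplex ℝ (Parab.II k r), ?_, ⟨R⟩⟩
    · rw [Parab.PP_ncard]
      ring
    · have h := isSimplex_stdSimplex (Parab.II k r)
      rw [Parab.card_II] at h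
      convert h using 1
      ring
  · intro V E _ _ _ _ _ _ C T N hC hT hR
    obtain ⟨R⟩ := hR
    exact ncard_le_choose hC hT R

end Pool.Agent.Results.MP_ff4a33_gt.LeastDimension
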